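import Pool.Agent.Y52.RS.Stm
import Pool.Agent.TH94.Gol.FreeTPO

set_option autoImplicit false

/-!
# Project RS, job FRS (1871, helper44 for helper52): free groups are R-star
-/

namespace Pool.Agent.Y44.RS.FRS

open Pool.Agent.Y52.RS Pool.Agent.TH94.Gol

theorem prod_conj {I : Type} {n : ℕ} (hn : 1 ≤ n) {x : FreeGroup I} (hx : DD n x)
    (l : List (FreeGroup I)) :
    DD n (l.map (fun h => h * x * h⁻¹)).prod ∧
      cf n (l.map (fun h => h * x * h⁻¹)).prod = (l.length : ℚ) • cf n x := by
  induction l with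
  | nil =>
    have h0 : ∀ i, 1 ≤ i → cf i (1 : FreeGroup I) = 0 := by
      intro i hi
      unfold cf MM
      rw [map_one, PowerSeries.coeff_one, if_neg (by omega)]
    constructor
    · rw [List.map_nil, List.prod_nil, DD_iff]
      intro i h1 _
      exact h0 i h1
    · rw [List.map_nil, List.prod_nil, h0 n hn, List.length_nil, Nat.cast_zero, zero_smul]
  | cons g l ih =>
    obtain ⟨h1, h2⟩ := DD_conj hn g hx
    obtain ⟨h3, h4⟩ := DD_mul hn h1 ih.1
    rw [List.map_cons, List.prod_cons]
    refine ⟨h3, ?_⟩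
    rw [h4, h2, ih.2, List.length_cons, Nat.cast_succ, add_smul, one_smul, add_comm]

theorem main : S_FRS := by
  classical
  intro I x hx l hl h
  obtain ⟨n0, hn0⟩ := exists_not_DD x hx
  have hex : ∃ m, ¬ DD m x := ⟨n0, hn0 n0 le_rfl⟩
  have hm := Nat.find_spec hex
  set m := Nat.find hex with hmdef
  have hm1 : m ≠ 1 := by
    intro hh
    rw [hh] at hm
    exact hm (DD_one x)
  have hm0 : m ≠ 0 := by
    intro hh
    rw [hh] at hm
    exact hm (OO.zero _)
  obtain ⟨n, hnm⟩ : ∃ n, m = n + 1 := ⟨m - 1, by omega⟩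
  have hn : 1 ≤ n := by omega
  have hDD : DD n x := by
    have := Nat.find_min hex (m := n) (by omega)
    push Not at this
    exact this
  have hc : cf n x ≠ 0 := by
    intro hc
    apply hm
    rw [hnm, DD_iff]
    intro i h1 h2
    rcases Nat.lt_or_ge i n with h3 | h3
    · exact (DD_iff n x).1 hDD i h1 h3
    · have : i = n := by omega
      rw [this, hc]
  have h2 := (prod_conj hn hDD l).2
  rw [h] at h2
  have h3 : cf n (1 : FreeGroup I) = 0 := by
    unfold cf MM
    rw [map_one, PowerSeries.coeff_one, if_neg (by omega)]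
  rw [h3] at h2
  rcases smul_eq_zero.1 h2.symm with h4 | h4
  · apply hl
    exact List.length_eq_zero_iff.1 (by exact_mod_cast h4)
  · exact hc h4

end Pool.Agent.Y44.RS.FRS
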