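import Pool.Agent.Y52.RS.Stm

set_option autoImplicit false

/-!
# Project RS, job TH (1869, helper44 for helper52): the labelled action of the free group on the
quotient
-/

namespace Pool.Agent.Y44.RS

open Pool.Agent.Y52.RS

section word

variable {J : Type}

/-- the label attached to a word -/
def gl (L : List (J × Bool)) : FreeGroup J :=
  match L.getLast? with
  | none => 1
  | some (j, b) => if b = true then (if L.length % 2 = 1 then FreeGroup.of j else
      (FreeGroup.of j)⁻¹) else 1

theorem gl_nil : gl ([] : List (J × Bool)) = 1 := rfl

theorem gl_cons (x y : J × Bool) (L : List (J × Bool)) : gl (y :: L) * gl (x :: y :: L) = 1 := by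
  unfold gl
  have h : (x :: y :: L).getLast? = (y :: L).getLast? := by
    rw [List.getLast?_cons_cons]
  rw [h]
  cases hL : (y :: L).getLast? with
  | none => simp
  | some a =>
    obtain ⟨j, b⟩ := a
    cases b
    · simp
    · simp only [if_true, List.length_cons]
      by_cases h1 : (L.length + 1) % 2 = 1
      · have h2 : ¬ (L.length + 1 + 1) % 2 = 1 := by omega
        rw [if_pos h1, if_neg h2, mul_inv_cancel]
      · have h2 : (L.length + 1 + 1) % 2 = 1 := by omega
        rw [if_neg h1, if_pos h2, inv_mul_cancel]

theorem gl_cons' (x y : J × Bool) (L : List (J × Bool)) : gl (x :: y :: L) * gl (y :: L) = 1 := by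
  have h := gl_cons x y L
  rw [mul_eq_one_iff_eq_inv] at h
  rw [h, mul_inv_cancel]

open Classical in
/-- the label attached to an element of the free group -/
noncomputable def Fh (q : FreeGroup J) : FreeGroup J := gl q.toWord

open Classical in
theorem Fh_mul (j : J) (q : FreeGroup J) :
    Fh q * Fh (FreeGroup.of j * q) = if q = 1 then FreeGroup.of j else 1 := by
  unfold Fh
  have h1 : (FreeGroup.of j * q).toWord = FreeGroup.reduce ((j, true) :: q.toWord) := by
    conv_lhs => rw [← FreeGroup.mk_toWord (x := q)]
    change (FreeGroup.mk [(j, true)] * FreeGroup.mk q.toWord).toWord = _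
    rw [FreeGroup.mul_mk, FreeGroup.toWord_mk]
    rfl
  rw [h1, FreeGroup.reduce.cons, FreeGroup.reduce_toWord]
  cases hq : q.toWord with
  | nil =>
    have : q = 1 := FreeGroup.toWord_eq_nil_iff.1 hq
    rw [if_pos this]
    simp [gl]
  | cons y L =>
    have : q ≠ 1 := by
      intro h
      rw [h, FreeGroup.toWord_one] at hq
      exact absurd hq (by simp)
    rw [if_neg this]
    simp only
    by_cases hy : j = y.1 ∧ true = !y.2
    · rw [if_pos hy]
      cases L with
      | nil =>
        obtain ⟨y1, y2⟩ := y
        have h2 : y2 = false := by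
          have := hy.2
          cases y2
          · rfl
          · simp at this
        subst h2
        simp [gl]
      | cons z L => exact gl_cons' y z L
    · rw [if_neg hy]
      exact gl_cons _ _ _

end word

section act

variable {T A : Type} [Group T] [Group A]

/-- the projection to the permutations -/
def pH : LW T A →* Equiv.Perm T where
  toFun u := u.p
  map_one' := rfl
  map_mul' _ _ := rfl

/-- the action with trivial labels -/
def S : T →* LW T A where
  toFun x := ⟨MulAction.toPermHom T T x, fun _ => 1⟩
  map_one' := by
    apply LW.ext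
    · exact map_one _
    · rfl
  map_mul' x y := by
    apply LW.ext
    · exact map_mul _ _ _
    · funext w
      rw [LW.mul_f]
      exact (mul_one 1).symm

end act

theorem main : S_TH := by
  classical
  intro J g g' T _ α t h hinj
  set ι : FreeGroup J →* T := FreeGroup.lift (fun j => α (g' j) * t) with hι
  -- the labels of `t`
  set f : T → FreeGroup J := fun u =>
    if hu : ∃ q : FreeGroup J, u = ι q * t⁻¹ then Fh hu.choose else 1 with hf
  have hf1 : ∀ q : FreeGroup J, f (ι q * t⁻¹) = Fh q := by
    intro q
    have hu : ∃ q' : FreeGroup J, ι q * t⁻¹ = ι q' * t⁻¹ := ⟨q, rfl⟩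
    have : f (ι q * t⁻¹) = Fh hu.choose := by
      simp only [hf]
      rw [dif_pos hu]
    rw [this]
    congr 1
    exact (hinj (mul_right_cancel hu.choose_spec)).symm
  have hf2 : ∀ u : T, (¬ ∃ q : FreeGroup J, u = ι q * t⁻¹) → f u = 1 := by
    intro u hu
    simp only [hf]
    rw [dif_neg hu]
  set π : FreeGroup (Option Bool) →* T := FreeGroup.lift (fun o => match o with
    | none => t
    | some b => α (FreeGroup.of b)) with hπ
  set θ : FreeGroup (Option Bool) →* LW T (FreeGroup J) := FreeGroup.lift (fun o => match o with
    | none => ⟨MulAction.toPermHom T T t, f⟩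
    | some b => S (α (FreeGroup.of b))) with hθ
  have e1 : pH.comp θ = (MulAction.toPermHom T T).comp π := by
    apply FreeGroup.ext_hom
    intro o
    cases o with
    | none =>
      simp only [MonoidHom.comp_apply, hθ, hπ, FreeGroup.lift_apply_of]
      rfl
    | some b =>
      simp only [MonoidHom.comp_apply, hθ, hπ, FreeGroup.lift_apply_of]
      rfl
  have e2 : θ.comp (FreeGroup.map some) = S.comp α := by
    apply FreeGroup.ext_hom
    intro b
    simp only [MonoidHom.comp_apply, FreeGroup.map.of, hθ, FreeGroup.lift_apply_of]
  refine ⟨π, θ, ?_, ?_⟩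
  · intro x u
    have := congrArg (fun ψ : FreeGroup (Option Bool) →* Equiv.Perm T => ψ x u) e1
    exact this
  · intro j
    have e3 : θ (FreeGroup.of none) = ⟨MulAction.toPermHom T T t, f⟩ := by
      simp only [hθ, FreeGroup.lift_apply_of]
    have e4 : ∀ v, θ (FreeGroup.map some v) = S (α v) := fun v =>
      congrArg (fun ψ : FreeGroup Bool →* LW T (FreeGroup J) => ψ v) e2
    have e5 : α (g j) * (t * α (g' j)) = t⁻¹ := by
      have h1 : t * (α (g j) * (t * α (g' j))) = 1 := by
        have := h j
        rw [mul_assoc, mul_assoc] at this
        exact this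
      exact eq_inv_of_mul_eq_one_right h1
    unfold ww
    rw [map_mul, map_mul, map_mul, e3, e4, e4]
    apply LW.ext
    · apply Equiv.ext
      intro w
      change t * (α (g j) * (t * (α (g' j) * w))) = w
      have h1 : α (g j) * (t * (α (g' j) * w)) = t⁻¹ * w := by
        rw [← e5]
        simp only [mul_assoc]
      rw [h1, mul_inv_cancel_left]
    · funext w
      change f (α (g j) * (t * (α (g' j) * w))) * 1 * f (α (g' j) * w) * 1 =
        if w = 1 then FreeGroup.of j else 1
      rw [mul_one, mul_one]
      have h1 : α (g j) * (t * (α (g' j) * w)) = t⁻¹ * w := by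
        rw [← e5]
        simp only [mul_assoc]
      rw [h1]
      have h2 : ∀ q : FreeGroup J, ι (FreeGroup.of j * q) = α (g' j) * t * ι q := by
        intro q
        rw [map_mul, hι, FreeGroup.lift_apply_of]
      by_cases hu : ∃ q : FreeGroup J, t⁻¹ * w = ι q * t⁻¹
      · obtain ⟨q, hq⟩ := hu
        have h3 : α (g' j) * w = ι (FreeGroup.of j * q) * t⁻¹ := by
          rw [h2, mul_assoc (α (g' j) * t), ← hq, mul_assoc, mul_inv_cancel_left]
        rw [hq, h3, hf1, hf1, Fh_mul]
        have h4 : q = 1 ↔ w = 1 := by
          constructor
          · rintro rfl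
            rw [map_one, one_mul] at hq
            have := congrArg (fun y => t * y) hq
            simpa using this
          · rintro rfl
            rw [mul_one] at hq
            have : ι q = 1 := by
              have := congrArg (fun y => y * t) hq
              simpa using this.symm
            exact hinj (this.trans (map_one _).symm)
        by_cases hw : w = 1
        · rw [if_pos (h4.2 hw), if_pos hw]
        · rw [if_neg (fun hh => hw (h4.1 hh)), if_neg hw]
      · have h3 : ¬ ∃ q : FreeGroup J, α (g' j) * w = ι q * t⁻¹ := by
          rintro ⟨q, hq⟩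
          apply hu
          refine ⟨(FreeGroup.of j)⁻¹ * q, ?_⟩
          have h5 := h2 ((FreeGroup.of j)⁻¹ * q)
          rw [mul_inv_cancel_left] at h5
          rw [h5] at hq
          have h6 : α (g' j) * w = α (g' j) * (t * (ι ((FreeGroup.of j)⁻¹ * q) * t⁻¹)) := by
            rw [hq]
            simp only [mul_assoc]
          have h7 := mul_left_cancel h6
          rw [h7, inv_mul_cancel_left]
        rw [hf2 _ hu, hf2 _ h3, one_mul]
        have hw : w ≠ 1 := by
          rintro rfl
          apply hu
          exact ⟨1, by rw [map_one, one_mul, mul_one]⟩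
        rw [if_neg hw]

end Pool.Agent.Y44.RS
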