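import Pool.Agent.Y105.RS.StmD

/-! Project RS: translation invariance of the two point function (RSW-TR2, helper44; adapted from
helper784's RSW-TRV) -/

set_option autoImplicit false
set_option linter.unusedSectionVars false

open Finset Equiv

namespace Pool.Agent.Y44.RS

open Pool.Agent.Y105.RS
open Pool.Agent.TH268.PD (law)
open Pool.Agent.W805.LR (stirMass ringSum)

section conj

variable {V : Type} [Fintype V] [DecidableEq V]

theorem ring_conj (σ : Perm V) {J : V → V → ℝ} (hJ : ∀ x y, J (σ x) (σ y) = J x y) (m : ℕ) :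
    ∀ g : Perm V, ringSum J m (σ * g * σ⁻¹) = ringSum J m g := by
  induction m with
  | zero =>
    intro g
    have h : σ * g * σ⁻¹ = 1 ↔ g = 1 := by rw [mul_inv_eq_one, mul_eq_left]
    simp only [ringSum, h]
  | succ m ih =>
    intro g
    simp only [ringSum]
    rw [← Equiv.sum_comp σ]
    refine Finset.sum_congr rfl fun x _ => ?_
    rw [← Equiv.sum_comp σ]
    refine Finset.sum_congr rfl fun y _ => ?_
    have h : swap (σ x) (σ y) * (σ * g * σ⁻¹) = σ * (swap x y * g) * σ⁻¹ := by
      rw [swap_apply_apply]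
      group
    rw [h, ih, hJ]

theorem law_conj (σ : Perm V) {J : V → V → ℝ} (hJ : ∀ x y, J (σ x) (σ y) = J x y) (t : ℝ)
    (g : Perm V) : law J t (σ * g * σ⁻¹) = law J t g := by
  unfold law
  congr 1
  unfold stirMass
  simp only [ring_conj σ hJ]

theorem same_conj (σ g : Perm V) (u v : V) :
    (σ * g * σ⁻¹).SameCycle (σ u) (σ v) ↔ g.SameCycle u v := by
  rw [Perm.sameCycle_conj]
  simp

theorem nc_conj (σ g : Perm V) : nc (σ * g * σ⁻¹) = nc g := by
  unfold nc
  symm
  refine Nat.card_congr (Quotient.congr σ fun a b => ?_)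
  exact (same_conj σ g a b).symm

open Classical in
theorem two_alike (σ : Perm V) {J : V → V → ℝ} (hJ : ∀ x y, J (σ x) (σ y) = J x y) (t ϑ : ℝ)
    (v z : V) : ∑ g, law J t g * (ϑ ^ nc g * (if g.SameCycle (σ v) (σ z) then 1 else 0)) =
      ∑ g, law J t g * (ϑ ^ nc g * (if g.SameCycle v z then (1 : ℝ) else 0)) := by
  rw [← Equiv.sum_comp (MulAut.conj σ).toEquiv]
  refine Finset.sum_congr rfl fun g _ => ?_
  have e1 : (MulAut.conj σ).toEquiv g = σ * g * σ⁻¹ := rfl
  rw [e1, law_conj σ hJ, nc_conj]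
  by_cases h : g.SameCycle v z
  · rw [if_pos h, if_pos ((same_conj σ g v z).2 h)]
  · rw [if_neg h, if_neg (fun h' => h ((same_conj σ g v z).1 h'))]

end conj

theorem tr2 : S_TR2 := by
  classical
  intro d L s _ t ϑ v w
  let σ : Perm (Fin d → ZMod L) := Equiv.addRight (w - v)
  have hσ : ∀ x, σ x = x + (w - v) := fun x => rfl
  have hσv : σ v = w := by rw [hσ]; abel
  have hJ : ∀ x y, nnR d L (σ x) (σ y) = nnR d L x y := by
    intro x y
    have e1 : ∀ (x y : Fin d → ZMod L) (i : Fin d), σ y = σ x + Pi.single i 1 ↔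
        y = x + Pi.single i 1 := by
      intro x y i
      rw [hσ, hσ, add_right_comm, add_left_inj]
    unfold nnR
    simp only [e1]
  have hbx : ∀ z, bx d L s (σ v) (σ z) = bx d L s v z := by
    intro z
    have e1 : ∀ u : Fin d → ZMod L, σ z = σ v + u ↔ z = v + u := by
      intro u
      rw [hσ, hσ, add_right_comm, add_left_inj]
    unfold bx
    simp only [e1]
  symm
  rw [← Equiv.sum_comp σ]
  refine Finset.sum_congr rfl fun z _ => ?_
  have h := two_alike σ hJ t ϑ v z
  rw [hσv] at h hbx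
  rw [hbx, h]

end Pool.Agent.Y44.RS
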